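import Pool.Agent.Helper27.CB.St

/-! # Project CB: assembly, part 1 (one direction, Santaló) -/

open MeasureTheory Set
open scoped ENNReal Pointwise

namespace Pool.Agent.Helper27.CB

lemma mu_pos {b : ℝ} (h0 : 0 < b) (h1 : b < 1) : 0 < mu b := by
  unfold mu
  have : 2 - 3 * b ^ 2 + b ^ 3 = (1 - b) * (2 + 2 * b - b ^ 2) := by ring
  rw [this]
  have h2 : 0 < 2 + 2 * b - b ^ 2 := by nlinarith
  have h3 : 0 < 1 - b := by linarith
  positivity

lemma sg_pos {b : ℝ} (h0 : 0 < b) (h1 : b < 1) : 0 < sg b := by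
  unfold sg
  have h2 : 0 < 2 + 2 * b - b ^ 2 := by nlinarith
  positivity

lemma sg_lt_one {b : ℝ} (h0 : 0 < b) (h1 : b < 1) : sg b < 1 := by
  unfold sg
  have h2 : 0 < 2 + 2 * b - b ^ 2 := by nlinarith
  rw [div_lt_one (by positivity)]
  nlinarith

lemma sg_mul_mu {b : ℝ} (h0 : 0 < b) (h1 : b < 1) : sg b * mu b = (1 - b ^ 2) / 4 := by
  unfold sg mu
  have h2 : 0 < 2 + 2 * b - b ^ 2 := by nlinarith
  have e : 2 - 3 * b ^ 2 + b ^ 3 = (1 - b) * (2 + 2 * b - b ^ 2) := by ring
  have h3 : 2 + 2 * b - b ^ 2 ≠ 0 := h2.ne'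
  rw [e, div_mul_div_comm, div_eq_div_iff (by positivity) (by norm_num)]
  ring

theorem hPDI (hLAY : StLAY) (hWCO : StWCO) (hONE : StONE) (hHXW : StHXW) : StPDI := by
  intro L F b hL hF h0 h1
  obtain ⟨-, hA, hB⟩ := hLAY L hL
  obtain ⟨hho, hht, hcc, han, hw0, -, -⟩ := hWCO L hL
  rw [hB]
  have key := hONE (wd L) (ho L) b hho h0 h1 hcc han
  rw [hA, hw0] at key
  have hs := sg_pos h0 h1
  have hs1 := sg_lt_one h0 h1
  have hm := mu_pos h0 h1
  have hx := hHXW L F hL hF (sg b * ho L) (by positivity) (by nlinarith)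
  have h3 : mu b * ho L ^ 3 * wd L (sg b * ho L) ≤
      2 * F * mu b / sg b * ho L ^ 2 - mu b * ho L ^ 3 * ht L := by
    have e1 : 2 * F * mu b / sg b * ho L ^ 2 - mu b * ho L ^ 3 * ht L =
        (mu b * ho L ^ 2 / sg b) * (2 * F - sg b * ho L * ht L) := by
      field_simp
    have e2 : mu b * ho L ^ 3 * wd L (sg b * ho L) =
        (mu b * ho L ^ 2 / sg b) * (sg b * ho L * wd L (sg b * ho L)) := by
      field_simp
    rw [e1, e2]
    apply mul_le_mul_of_nonneg_left _ (by positivity)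
    nlinarith
  nlinarith

theorem hSAN (hPLO : StPLO) (hSNF : StSNF) (hSNC : StSNC) (hPLR : StPLR) (hLAY : StLAY)
    (hWCO : StWCO) : StSAN := by
  intro D hD hS
  obtain ⟨hP, hPS⟩ := hPLR D hD hS
  obtain ⟨hH, hc, ha, hp, hv⟩ := hSNF D hD hS
  obtain ⟨-, hA, -⟩ := hLAY (plr D) hP
  obtain ⟨hho, hht, hcc, han, hw0, hwn, hwp⟩ := hWCO (plr D) hP
  set H := sSup (Prod.snd '' D) with hHdef
  set A := ho (plr D) / 2 with hAdef
  have hApos : 0 < A := by positivity
  set f : ℝ → ℝ := fun x => len D x / 2 with hf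
  set G : ℝ → ℝ := fun s => wd (plr D) (2 * s) / 2 with hG
  have main := hPLO H A f G hH hApos
    (by
      have := hc.smul (c := (1 / 2 : ℝ)) (by norm_num)
      refine this.congr ?_
      intro x _
      simp [hf]; ring)
    (by intro x hx y hy hxy; have := ha hx hy hxy; simp only [hf]; linarith)
    (by intro x hx hx'; have := hp x hx hx'; simp only [hf]; linarith)
    (by
      refine ⟨convex_Icc _ _, ?_⟩
      intro x hx y hy a b ha' hb' hab
      have hx2 : 2 * x ∈ Icc 0 (ho (plr D)) := ⟨by linarith [hx.1], by linarith [hx.2]⟩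
      have hy2 : 2 * y ∈ Icc 0 (ho (plr D)) := ⟨by linarith [hy.1], by linarith [hy.2]⟩
      have := hcc.2 hx2 hy2 ha' hb' hab
      simp only [smul_eq_mul, hG] at this ⊢
      have e : 2 * (a * x + b * y) = a * (2 * x) + b * (2 * y) := by ring
      rw [e]; linarith)
    (by
      intro x hx y hy hxy
      have hx2 : 2 * x ∈ Icc 0 (ho (plr D)) := ⟨by linarith [hx.1], by linarith [hx.2]⟩
      have hy2 : 2 * y ∈ Icc 0 (ho (plr D)) := ⟨by linarith [hy.1], by linarith [hy.2]⟩
      have := han hx2 hy2 (by linarith)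
      simp only [hG]; linarith)
    (by
      intro x hx hx'
      have := hwp (2 * x) (by linarith) (by linarith)
      simp only [hG]; linarith)
    (by
      intro x y hx hx' hy hy'
      exact hSNC D hD hS x y hx hx' hy (by linarith))
  have e1 : (∫ x in (0 : ℝ)..H, f x) = vl D / 4 := by
    simp only [hf]
    rw [intervalIntegral.integral_div]
    linarith
  have e2 : (∫ y in (0 : ℝ)..A, G y) = vl (plr D) / 4 := by
    simp only [hG]
    rw [intervalIntegral.integral_div, intervalIntegral.integral_comp_mul_left _ (by norm_num : (2 : ℝ) ≠ 0)]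
    have : 2 * A = ho (plr D) := by simp only [hAdef]; ring
    rw [this, mul_zero, hA]
    simp only [smul_eq_mul]; ring
  rw [e1, e2] at main
  nlinarith [main]

end Pool.Agent.Helper27.CB
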