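import Pool.Agent.Helper27.CB.Asm1

/-! # Project CB: assembly, part 2 (integration over the directions) -/

open MeasureTheory Set
open scoped ENNReal Pointwise

namespace Pool.Agent.Helper27.CB

lemma contRad3 {D : Set P2} (h1 : Continuous (rad D)) (h2 : Continuous (nrm D)) :
    Continuous (fun φ => rad D φ ^ 3 * nrm D (Real.cos φ, Real.sin φ)) :=
  (h1.pow 3).mul (h2.comp (Real.continuous_cos.prodMk Real.continuous_sin))

/-- the integrated inequality -/
theorem integrated (hRBD : StRBD) (hPDI : StPDI) (hCRA : StCRA) (hCRB : StCRB) (hRAD : StRAD)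
    (hCTN : StCTN) (hPOL : StPOL) (K : Set P2) (hK : Bd K) (F b : ℝ)
    (hHex : ∀ φ, HexB (rb K φ) F) (h0 : 0 < b) (h1 : b < 1) :
    vl K ^ 2 ≤ (b ^ 2 / 2 * vl K + 2 * F * mu b / sg b) * vl (K - K) -
      (mu b + b ^ 3 / 6) * (3 / 2 * ∫ z in K - K, nrm (K - K) z) := by
  obtain ⟨hD, hS, hho, hht⟩ := hRAD K hK
  obtain ⟨hc1, hc2, hrp, -, -, hn0, -, -⟩ := hCTN (K - K) hD hS
  obtain ⟨hp1, hp2⟩ := hPOL (K - K) hD hS
  set D := K - K with hDdef
  set V := vl K with hV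
  set c1 := b ^ 2 / 2 * V + 2 * F * mu b / sg b with hc1def
  set t := mu b + b ^ 3 / 6 with ht
  set g : ℝ → ℝ := fun φ => (∫ τ, len (rb K φ) τ ^ 3) / 6 with hg
  set h : ℝ → ℝ := fun φ => (c1 * rad D φ ^ 2 -
    t * (rad D φ ^ 3 * nrm D (Real.cos φ, Real.sin φ))) / 2 with hh
  have hgh : ∀ φ, g φ ≤ h φ := by
    intro φ
    have := hPDI (rb K φ) F b (hRBD K hK φ).1 (hHex φ) h0 h1
    rw [hho φ, hht φ, (hRBD K hK φ).2] at this
    simp only [hg, hh, hc1def, ht]
    have e : 3 * (b ^ 2 / 2 * rad D φ ^ 2 * V + 2 * F * mu b / sg b * rad D φ ^ 2 -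
      (mu b + b ^ 3 / 6) * rad D φ ^ 3 * nrm D (Real.cos φ, Real.sin φ)) =
      3 * ((b ^ 2 / 2 * V + 2 * F * mu b / sg b) * rad D φ ^ 2 - (mu b + b ^ 3 / 6) *
        (rad D φ ^ 3 * nrm D (Real.cos φ, Real.sin φ))) := by ring
    rw [e] at this
    linarith
  have hg0 : ∀ φ, 0 ≤ g φ := by
    intro φ
    simp only [hg]
    apply div_nonneg _ (by norm_num)
    apply integral_nonneg
    intro τ
    exact pow_nonneg ENNReal.toReal_nonneg 3
  have hcont : Continuous h := by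
    simp only [hh]
    exact ((continuous_const.mul (hc1.pow 2)).sub
      (continuous_const.mul (contRad3 hc1 hc2))).div_const _
  have hint : IntegrableOn h (Ioo (-Real.pi) Real.pi) :=
    (hcont.integrableOn_Icc (a := -Real.pi) (b := Real.pi)).mono_set Ioo_subset_Icc_self
  have hVol : volume K = ENNReal.ofReal V := by
    rw [hV, vl, ENNReal.ofReal_toReal hK.cpt.measure_lt_top.ne]
  have hV0 : 0 ≤ V := ENNReal.toReal_nonneg
  have e1 : ENNReal.ofReal (V ^ 2) = ∫⁻ φ in Ioo (-Real.pi) Real.pi, ENNReal.ofReal (g φ) := by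
    rw [ENNReal.ofReal_pow hV0, ← hVol, ← hCRA K hK.cpt]
    refine lintegral_congr_ae (Filter.Eventually.of_forall ?_)
    intro φ
    exact hCRB K hK φ
  have e2 : (∫⁻ φ in Ioo (-Real.pi) Real.pi, ENNReal.ofReal (g φ)) ≤
      ∫⁻ φ in Ioo (-Real.pi) Real.pi, ENNReal.ofReal (h φ) :=
    lintegral_mono (fun φ => ENNReal.ofReal_le_ofReal (hgh φ))
  have e3 : (∫⁻ φ in Ioo (-Real.pi) Real.pi, ENNReal.ofReal (h φ)) =
      ENNReal.ofReal (∫ φ in Ioo (-Real.pi) Real.pi, h φ) := by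
    rw [ofReal_integral_eq_lintegral_ofReal hint]
    exact Filter.Eventually.of_forall (fun φ => (hg0 φ).trans (hgh φ))
  have e4 : V ^ 2 ≤ ∫ φ in Ioo (-Real.pi) Real.pi, h φ := by
    have h5 : 0 ≤ ∫ φ in Ioo (-Real.pi) Real.pi, h φ :=
      integral_nonneg (fun φ => (hg0 φ).trans (hgh φ))
    rw [e1.symm, e3] at e2
    exact (ENNReal.ofReal_le_ofReal_iff h5).1 e2
  have e5 : (∫ φ in Ioo (-Real.pi) Real.pi, h φ) =
      (c1 * (2 * vl D) - t * (3 * ∫ z in D, nrm D z)) / 2 := by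
    have i1 : IntegrableOn (fun φ => c1 * rad D φ ^ 2) (Ioo (-Real.pi) Real.pi) :=
      ((continuous_const.mul (hc1.pow 2)).integrableOn_Icc (a := -Real.pi)
        (b := Real.pi)).mono_set Ioo_subset_Icc_self
    have i2 : IntegrableOn (fun φ => t * (rad D φ ^ 3 * nrm D (Real.cos φ, Real.sin φ)))
        (Ioo (-Real.pi) Real.pi) :=
      ((continuous_const.mul (contRad3 hc1 hc2)).integrableOn_Icc (a := -Real.pi)
        (b := Real.pi)).mono_set Ioo_subset_Icc_self
    simp only [hh]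
    rw [integral_div, integral_sub i1 i2, integral_const_mul, integral_const_mul, hp1, hp2]
  rw [e5] at e4
  linarith

/-- the second integrated inequality (inscribed quadrilaterals) -/
theorem integrated2 (hRBD : StRBD) (hHXW : StHXW) (hRAD : StRAD) (hWCO : StWCO)
    (hCTN : StCTN) (hPOL : StPOL) (K : Set P2) (hK : Bd K) (F : ℝ)
    (hHex : ∀ φ, HexB (rb K φ) F) :
    3 * (∫ z in K - K, nrm (K - K) z) ≤ 4 * F * vl (K - K) := by
  obtain ⟨hD, hS, hho, hht⟩ := hRAD K hK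
  obtain ⟨hc1, hc2, hrp, -, -, hn0, -, -⟩ := hCTN (K - K) hD hS
  obtain ⟨hp1, hp2⟩ := hPOL (K - K) hD hS
  set D := K - K with hDdef
  rw [← hp2]
  have e : 4 * F * vl D = (2 * F) * (2 * vl D) := by ring
  rw [e, ← hp1, ← integral_const_mul]
  apply setIntegral_mono_on
  · exact ((contRad3 hc1 hc2).integrableOn_Icc (a := -Real.pi)
        (b := Real.pi)).mono_set Ioo_subset_Icc_self
  · exact ((continuous_const.mul (hc1.pow 2)).integrableOn_Icc (a := -Real.pi)
        (b := Real.pi)).mono_set Ioo_subset_Icc_self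
  · exact measurableSet_Ioo
  · intro φ _
    have hb := (hRBD K hK φ).1
    have h1 := hHXW (rb K φ) F hb (hHex φ) (ho (rb K φ)) (hWCO _ hb).1 le_rfl
    have h2 : 0 ≤ wd (rb K φ) (ho (rb K φ)) := ENNReal.toReal_nonneg
    have h3 := (hWCO _ hb).1
    rw [hho φ, hht φ] at h1
    rw [hho φ] at h3 h2
    have h4 : rad D φ * nrm D (Real.cos φ, Real.sin φ) ≤ 2 * F := by nlinarith
    have e2 : rad D φ ^ 3 * nrm D (Real.cos φ, Real.sin φ) =
      rad D φ ^ 2 * (rad D φ * nrm D (Real.cos φ, Real.sin φ)) := by ring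
    rw [e2, mul_comm (2 * F)]
    exact mul_le_mul_of_nonneg_left h4 (by positivity)

end Pool.Agent.Helper27.CB
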