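import Pool.Agent.Helper27.CB.St

/-! # Project CB: two more statements (two nodes, second family of p-hexagons) -/

open MeasureTheory Set
open scoped ENNReal Pointwise

namespace Pool.Agent.Helper27.CB

/-- `∫_b^e (t^2 - a^2/2) dt` -/
noncomputable def wm (a b e : ℝ) : ℝ := (e ^ 3 - b ^ 3) / 3 - a ^ 2 * (e - b) / 2

/-- the centroid: `∫_b^e t (t^2 - a^2/2) dt / ∫_b^e (t^2 - a^2/2) dt` -/
noncomputable def wc (a b e : ℝ) : ℝ :=
  ((e ^ 4 - b ^ 4) / 4 - a ^ 2 * (e ^ 2 - b ^ 2) / 4) / wm a b e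

/-- ONT: the inequality for concave functions with two nodes (about 170 lines; adapt
Pool/Agent/Helper36/CB/M_ONE27.lean or Helper33/CB/M_ONE.lean).
PROOF. As StONE: assume c = 1, k t = t^2 - a^2/2. (I) ∫_0^a k w <= -(a^3/6) w 0 (antitone slopes (w t - w 0)/t, sign change of k at a/sqrt 2, ∫_0^a t k t dt = 0,
∫_0^a k = -a^3/6). (II) On [a,b] and on [b,1] the weight k is positive, its mass is wm a a b resp. wm a b 1 and its centroid wc a a b in (a,b) resp. wc a b 1 in (b,1);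
the supporting line of the concave function w at the centroid gives ∫_a^b k w <= wm a a b * w (wc a a b) and ∫_b^1 k w <= wm a b 1 * w (wc a b 1). Sum up:
∫_0^1 t^2 w <= (a^2/2) ∫_0^1 w - (a^3/6) w 0 + ... -/
def StONT : Prop := ∀ (w : ℝ → ℝ) (c a b : ℝ), 0 < c → 0 < a → a < b → b < 1 →
  ConcaveOn ℝ (Icc 0 c) w → AntitoneOn w (Icc 0 c) →
  (∫ s in (0 : ℝ)..c, s ^ 2 * w s) ≤ a ^ 2 / 2 * c ^ 2 * (∫ s in (0 : ℝ)..c, w s) -
    a ^ 3 / 6 * c ^ 3 * w 0 + wm a a b * c ^ 3 * w (wc a a b * c) +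
    wm a b 1 * c ^ 3 * w (wc a b 1 * c)

/-- HXG: the second family of p-hexagons (about 150 lines), uses StRBD, StSLK, StSLC.
PROOF. Let L = rb K φ, c = ho L. rb L ψ = rb K (φ + ψ) (rot φ (rot ψ q) = rot (φ + ψ) q), so HexB (rb L ψ) F for all ψ. hs L s = Icc α β (compact, convex, nonempty), wd L s = β - α.
If α = β the left side is 0; 0 <= 2 F by HexB with all heights equal (chord of length s, p0 = p3 = p4 = p5). Let α < β: z1 = (t1, α), (t1 + s, α) in L and z2 = (t2, β), (t2 + s, β) in L.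
Let ℓ = sqrt ((t2 - t1)^2 + (β - α)^2) > 0 and ψ with t2 - t1 = ℓ cos ψ, β - α = ℓ sin ψ (so sin ψ > 0; e.g. Complex.arg or Real.arccos). For x in L put R x = rot (-ψ) x in rb L ψ; its
height (R x).2 is cos ψ * x.2 - sin ψ * x.1, and R (x + u) = R x + rot (-ψ) u. R z2 = ((R z1).1 + ℓ, (R z1).2), the same for z1' = (t1+s, α), z2' = (t2+s, β): chords of length ℓ at the
heights h z1 and h z1' = h z1 - s sin ψ. Longest chord: by StSLK hs L c is nonempty: q = (t0, τ0), (t0 + c, τ0) in L, and hs L c ⊆ hs L s gives α <= τ0 <= β. The point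
m = z1 + λ (z2 - z1) with λ = (τ0 - α)/(β - α) is in L at the height τ0, and so is m' = m + (s,0). The slice of L at the height τ0 has length <= c (StSLC), so t0 <= m.1 (else the slice contains
[m.1, t0 + c], too long) and m.1 + s <= t0 + c. Hence p0 = R q has height >= that of R m = height of R z1 = p5, and p3 = R (t0 + c, τ0) has height <= that of R m' = height of p4 = R z1'.
HexB (rb L ψ) F with s := ℓ gives ℓ ((h p0 - h p3) + (h p5 - h p4)) = ℓ (c sin ψ + s sin ψ) = (c + s)(β - α) <= 2 F. -/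
def StHXG : Prop := ∀ (K : Set P2) (F : ℝ), Bd K → (∀ φ, HexB (rb K φ) F) → ∀ φ s : ℝ,
  0 < s → s ≤ ho (rb K φ) → (s + ho (rb K φ)) * wd (rb K φ) s ≤ 2 * F

end Pool.Agent.Helper27.CB
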