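import Pool.Agent.Helper27.CB.Asm2
import Pool.Agent.Helper27.CB.St2

/-! # Project CB: assembly, part 4 (two nodes) -/

open MeasureTheory Set
open scoped ENNReal Pointwise

namespace Pool.Agent.Helper27.CB

lemma wm_pos1 {a b : ℝ} (h0 : 0 < a) (h1 : a < b) : 0 < wm a a b := by
  unfold wm
  have h : (b ^ 3 - a ^ 3) / 3 - a ^ 2 * (b - a) / 2 = (b - a) * (2 * b ^ 2 + 2 * a * b - a ^ 2) / 6 := by
    ring
  rw [h]
  have h2 : 0 < 2 * b ^ 2 + 2 * a * b - a ^ 2 := by nlinarith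
  have h3 : 0 < b - a := by linarith
  positivity

lemma wm_pos2 {a b : ℝ} (h0 : 0 < a) (h1 : a < b) (h2 : b < 1) : 0 < wm a b 1 := by
  unfold wm
  have h : ((1 : ℝ) ^ 3 - b ^ 3) / 3 - a ^ 2 * (1 - b) / 2 =
      (1 - b) * (2 + 2 * b + 2 * b ^ 2 - 3 * a ^ 2) / 6 := by ring
  rw [h]
  have h3 : 0 < 2 + 2 * b + 2 * b ^ 2 - 3 * a ^ 2 := by nlinarith
  have h4 : 0 < 1 - b := by linarith
  positivity

lemma wc_pos1 {a b : ℝ} (h0 : 0 < a) (h1 : a < b) : 0 < wc a a b := by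
  unfold wc
  apply div_pos _ (wm_pos1 h0 h1)
  have h : (b ^ 4 - a ^ 4) / 4 - a ^ 2 * (b ^ 2 - a ^ 2) / 4 = b ^ 2 * (b - a) * (b + a) / 4 := by
    ring
  rw [h]
  have h3 : 0 < b - a := by linarith
  have h4 : 0 < b := by linarith
  positivity

lemma wc_pos2 {a b : ℝ} (h0 : 0 < a) (h1 : a < b) (h2 : b < 1) : 0 < wc a b 1 := by
  unfold wc
  apply div_pos _ (wm_pos2 h0 h1 h2)
  have h : ((1 : ℝ) ^ 4 - b ^ 4) / 4 - a ^ 2 * (1 ^ 2 - b ^ 2) / 4 =
      (1 - b) * (1 + b) * (1 + b ^ 2 - a ^ 2) / 4 := by ring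
  rw [h]
  have h3 : 0 < 1 - b := by linarith
  have h4 : 0 < 1 + b ^ 2 - a ^ 2 := by nlinarith
  have h5 : 0 < b := by linarith
  positivity

lemma wc_lt1 {a b : ℝ} (h0 : 0 < a) (h1 : a < b) (h2 : b < 1) : wc a a b < 1 := by
  unfold wc
  rw [div_lt_one (wm_pos1 h0 h1)]
  unfold wm
  have h : ((b ^ 3 - a ^ 3) / 3 - a ^ 2 * (b - a) / 2) -
      ((b ^ 4 - a ^ 4) / 4 - a ^ 2 * (b ^ 2 - a ^ 2) / 4) =
      (b - a) * (4 * b ^ 2 + 4 * a * b - 2 * a ^ 2 - 3 * b ^ 3 - 3 * a * b ^ 2) / 12 := by ring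
  have h3 : 0 < b - a := by linarith
  have h4 : 0 < 4 * b ^ 2 + 4 * a * b - 2 * a ^ 2 - 3 * b ^ 3 - 3 * a * b ^ 2 := by
    nlinarith [mul_pos h0 h3, mul_pos (by linarith : (0:ℝ) < b) (by linarith : (0:ℝ) < 1 - b),
      mul_pos (mul_pos (by linarith : (0:ℝ) < b) (by linarith : (0:ℝ) < b)) (by linarith : (0:ℝ) < 1 - b),
      mul_pos (mul_pos h0 (by linarith : (0:ℝ) < b)) (by linarith : (0:ℝ) < 1 - b)]
  have h5 := mul_pos h3 h4
  linarith

lemma wc_lt2 {a b : ℝ} (h0 : 0 < a) (h1 : a < b) (h2 : b < 1) : wc a b 1 < 1 := by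
  unfold wc
  rw [div_lt_one (wm_pos2 h0 h1 h2)]
  unfold wm
  have h : (((1 : ℝ) ^ 3 - b ^ 3) / 3 - a ^ 2 * (1 - b) / 2) -
      (((1 : ℝ) ^ 4 - b ^ 4) / 4 - a ^ 2 * (1 ^ 2 - b ^ 2) / 4) =
      (1 - b) ^ 2 * (1 + 2 * b + 3 * b ^ 2 - 3 * a ^ 2) / 12 := by ring
  have h3 : 0 < 1 - b := by linarith
  have h4 : 0 < 1 + 2 * b + 3 * b ^ 2 - 3 * a ^ 2 := by nlinarith
  have h5 := mul_pos (pow_pos h3 2) h4
  linarith

/-- the coefficient of `2 F` -/
noncomputable def cR (a b : ℝ) : ℝ := wm a a b / (1 + wc a a b) + wm a b 1 / wc a b 1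

/-- the coefficient of the width -/
noncomputable def cT (a b : ℝ) : ℝ := a ^ 3 / 6 + wm a b 1

lemma cR_pos {a b : ℝ} (h0 : 0 < a) (h1 : a < b) (h2 : b < 1) : 0 < cR a b := by
  unfold cR
  have := wm_pos1 h0 h1
  have := wm_pos2 h0 h1 h2
  have := wc_pos1 h0 h1
  have := wc_pos2 h0 h1 h2
  positivity

lemma cT_pos {a b : ℝ} (h0 : 0 < a) (h1 : a < b) (h2 : b < 1) : 0 < cT a b := by
  unfold cT
  have := wm_pos2 h0 h1 h2
  positivity

theorem pdi2 (hRBD : StRBD) (hLAY : StLAY) (hWCO : StWCO) (hONT : StONT) (hHXW : StHXW)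
    (hHXG : StHXG) (K : Set P2) (hK : Bd K) (F a b : ℝ) (hHex : ∀ φ, HexB (rb K φ) F)
    (h0 : 0 < a) (h1 : a < b) (h2 : b < 1) (φ : ℝ) :
    (∫ τ, len (rb K φ) τ ^ 3) ≤ 3 * ((a ^ 2 / 2 * vl (rb K φ) + 2 * F * cR a b) *
      ho (rb K φ) ^ 2 - cT a b * (ho (rb K φ) ^ 3 * ht (rb K φ))) := by
  have hL := (hRBD K hK φ).1
  set L := rb K φ with hLdef
  obtain ⟨-, hA, hB⟩ := hLAY L hL
  obtain ⟨hho, hht, hcc, han, hw0, -, -⟩ := hWCO L hL
  rw [hB]
  have key := hONT (wd L) (ho L) a b hho h0 h1 h2 hcc han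
  rw [hA, hw0] at key
  have p1 := wm_pos1 h0 h1
  have p2 := wm_pos2 h0 h1 h2
  have p3 := wc_pos1 h0 h1
  have p4 := wc_pos2 h0 h1 h2
  have p5 := wc_lt1 h0 h1 h2
  have p6 := wc_lt2 h0 h1 h2
  have hx := hHXW L F hL (hHex φ) (wc a b 1 * ho L) (by positivity) (by nlinarith)
  have hy := hHXG K F hK hHex φ (wc a a b * ho L) (by positivity) (by nlinarith)
  rw [← hLdef] at hy
  have e1 : wm a b 1 * ho L ^ 3 * wd L (wc a b 1 * ho L) ≤
      2 * F * (wm a b 1 / wc a b 1) * ho L ^ 2 - wm a b 1 * (ho L ^ 3 * ht L) := by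
    have e1 : 2 * F * (wm a b 1 / wc a b 1) * ho L ^ 2 - wm a b 1 * (ho L ^ 3 * ht L) =
        (wm a b 1 * ho L ^ 2 / wc a b 1) * (2 * F - wc a b 1 * ho L * ht L) := by
      field_simp
    have e2 : wm a b 1 * ho L ^ 3 * wd L (wc a b 1 * ho L) =
        (wm a b 1 * ho L ^ 2 / wc a b 1) * (wc a b 1 * ho L * wd L (wc a b 1 * ho L)) := by
      field_simp
    rw [e1, e2]
    apply mul_le_mul_of_nonneg_left _ (by positivity)
    nlinarith
  have e2 : wm a a b * ho L ^ 3 * wd L (wc a a b * ho L) ≤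
      2 * F * (wm a a b / (1 + wc a a b)) * ho L ^ 2 := by
    have e3 : 2 * F * (wm a a b / (1 + wc a a b)) * ho L ^ 2 =
        (wm a a b * ho L ^ 2 / (1 + wc a a b)) * (2 * F) := by
      field_simp
    have e4 : wm a a b * ho L ^ 3 * wd L (wc a a b * ho L) =
        (wm a a b * ho L ^ 2 / (1 + wc a a b)) * ((wc a a b * ho L + ho L) * wd L (wc a a b * ho L)) := by
      field_simp
      ring
    rw [e3, e4]
    exact mul_le_mul_of_nonneg_left hy (by positivity)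
  unfold cR cT
  nlinarith

/-- the integrated inequality, general form -/
theorem integratedG (hCRA : StCRA) (hCRB : StCRB) (hRAD : StRAD)
    (hCTN : StCTN) (hPOL : StPOL) (K : Set P2) (hK : Bd K) (c1 t : ℝ)
    (hpt : ∀ φ, (∫ τ, len (rb K φ) τ ^ 3) ≤ 3 * (c1 * ho (rb K φ) ^ 2 -
      t * (ho (rb K φ) ^ 3 * ht (rb K φ)))) :
    vl K ^ 2 ≤ c1 * vl (K - K) - t * (3 / 2 * ∫ z in K - K, nrm (K - K) z) := by
  obtain ⟨hD, hS, hho, hht⟩ := hRAD K hK
  obtain ⟨hc1, hc2, hrp, -, -, hn0, -, -⟩ := hCTN (K - K) hD hS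
  obtain ⟨hp1, hp2⟩ := hPOL (K - K) hD hS
  set D := K - K with hDdef
  set V := vl K with hV
  set g : ℝ → ℝ := fun φ => (∫ τ, len (rb K φ) τ ^ 3) / 6 with hg
  set h : ℝ → ℝ := fun φ => (c1 * rad D φ ^ 2 -
    t * (rad D φ ^ 3 * nrm D (Real.cos φ, Real.sin φ))) / 2 with hh
  have hgh : ∀ φ, g φ ≤ h φ := by
    intro φ
    have := hpt φ
    rw [hho φ, hht φ] at this
    simp only [hg, hh]
    linarith
  have hg0 : ∀ φ, 0 ≤ g φ := by
    intro φ
    simp only [hg]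
    apply div_nonneg _ (by norm_num)
    apply integral_nonneg
    intro τ
    exact pow_nonneg ENNReal.toReal_nonneg 3
  have hcont : Continuous h := by
    simp only [hh]
    exact ((continuous_const.mul (hc1.pow 2)).sub
      (continuous_const.mul (contRad3 hc1 hc2))).div_const _
  have hint : IntegrableOn h (Ioo (-Real.pi) Real.pi) :=
    (hcont.integrableOn_Icc (a := -Real.pi) (b := Real.pi)).mono_set Ioo_subset_Icc_self
  have hVol : volume K = ENNReal.ofReal V := by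
    rw [hV, vl, ENNReal.ofReal_toReal hK.cpt.measure_lt_top.ne]
  have hV0 : 0 ≤ V := ENNReal.toReal_nonneg
  have e1 : ENNReal.ofReal (V ^ 2) = ∫⁻ φ in Ioo (-Real.pi) Real.pi, ENNReal.ofReal (g φ) := by
    rw [ENNReal.ofReal_pow hV0, ← hVol, ← hCRA K hK.cpt]
    refine lintegral_congr_ae (Filter.Eventually.of_forall ?_)
    intro φ
    exact hCRB K hK φ
  have e2 : (∫⁻ φ in Ioo (-Real.pi) Real.pi, ENNReal.ofReal (g φ)) ≤
      ∫⁻ φ in Ioo (-Real.pi) Real.pi, ENNReal.ofReal (h φ) :=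
    lintegral_mono (fun φ => ENNReal.ofReal_le_ofReal (hgh φ))
  have e3 : (∫⁻ φ in Ioo (-Real.pi) Real.pi, ENNReal.ofReal (h φ)) =
      ENNReal.ofReal (∫ φ in Ioo (-Real.pi) Real.pi, h φ) := by
    rw [ofReal_integral_eq_lintegral_ofReal hint]
    exact Filter.Eventually.of_forall (fun φ => (hg0 φ).trans (hgh φ))
  have e4 : V ^ 2 ≤ ∫ φ in Ioo (-Real.pi) Real.pi, h φ := by
    have h5 : 0 ≤ ∫ φ in Ioo (-Real.pi) Real.pi, h φ :=
      integral_nonneg (fun φ => (hg0 φ).trans (hgh φ))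
    rw [e1.symm, e3] at e2
    exact (ENNReal.ofReal_le_ofReal_iff h5).1 e2
  have e5 : (∫ φ in Ioo (-Real.pi) Real.pi, h φ) =
      (c1 * (2 * vl D) - t * (3 * ∫ z in D, nrm D z)) / 2 := by
    have i1 : IntegrableOn (fun φ => c1 * rad D φ ^ 2) (Ioo (-Real.pi) Real.pi) :=
      ((continuous_const.mul (hc1.pow 2)).integrableOn_Icc (a := -Real.pi)
        (b := Real.pi)).mono_set Ioo_subset_Icc_self
    have i2 : IntegrableOn (fun φ => t * (rad D φ ^ 3 * nrm D (Real.cos φ, Real.sin φ)))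
        (Ioo (-Real.pi) Real.pi) :=
      ((continuous_const.mul (contRad3 hc1 hc2)).integrableOn_Icc (a := -Real.pi)
        (b := Real.pi)).mono_set Ioo_subset_Icc_self
    simp only [hh]
    rw [integral_div, integral_sub i1 i2, integral_const_mul, integral_const_mul, hp1, hp2]
  rw [e5] at e4
  linarith

/-- the lower bound for the norm integral in terms of the volume product -/
lemma JBound {DD Pp J : ℝ} (hD : 0 < DD) (hP : 0 < Pp) (hJ : 0 ≤ J)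
    (hdis : 4 * DD ^ 3 ≤ 9 * Pp * J ^ 2) :
    DD ^ 2 / Real.sqrt (DD * Pp) ≤ 3 / 2 * J := by
  set q := Real.sqrt (DD * Pp) with hq
  have hq0 : 0 < q := Real.sqrt_pos.2 (by positivity)
  have hq2 : q ^ 2 = DD * Pp := Real.sq_sqrt (by positivity)
  have h2 : (2 * DD ^ 2) ^ 2 ≤ (3 * q * J) ^ 2 := by
    have e1 : (3 * q * J) ^ 2 = DD * (9 * Pp * J ^ 2) := by
      calc (3 * q * J) ^ 2 = 9 * q ^ 2 * J ^ 2 := by ring
        _ = _ := by rw [hq2]; ring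
    rw [e1]
    calc (2 * DD ^ 2) ^ 2 = DD * (4 * DD ^ 3) := by ring
      _ ≤ _ := mul_le_mul_of_nonneg_left hdis hD.le
  have h3 := (abs_le_of_sq_le_sq' h2 (by positivity)).2
  rw [div_le_iff₀ hq0]
  nlinarith

/-- the bound with two nodes -/
noncomputable def R2 (a b d q : ℝ) : ℝ :=
  1 / (2 * cR a b) * (1 / d + cT a b * d / q - a ^ 2 / 2)

/-- the algebra of the main inequality (two nodes) -/
lemma coreG {V DD Pp J T a b : ℝ} (hV : 0 < V) (hD : 0 < DD) (hP : 0 < Pp) (hJ : 0 ≤ J)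
    (hT : 0 < T) (h0 : 0 < a) (h1 : a < b) (h2 : b < 1) (hdis : 4 * DD ^ 3 ≤ 9 * Pp * J ^ 2)
    (hmain : V ^ 2 ≤ (a ^ 2 / 2 * V + 2 * (V / T) * cR a b) * DD - cT a b * (3 / 2 * J)) :
    T * R2 a b (DD / V) (Real.sqrt (DD * Pp)) ≤ 1 := by
  have hR := cR_pos h0 h1 h2
  have hC := cT_pos h0 h1 h2
  have hJB := JBound hD hP hJ hdis
  set q := Real.sqrt (DD * Pp) with hq
  have hq0 : 0 < q := Real.sqrt_pos.2 (by positivity)
  have h3 : cT a b * (DD ^ 2 / q) ≤ cT a b * (3 / 2 * J) := mul_le_mul_of_nonneg_left hJB hC.le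
  have h4 : V ^ 2 ≤ (a ^ 2 / 2 * V + 2 * (V / T) * cR a b) * DD - cT a b * (DD ^ 2 / q) := by
    linarith
  have h5 : V / DD + cT a b * (DD / V) / q - a ^ 2 / 2 ≤ 2 * cR a b / T := by
    have h6 : V ^ 2 / (V * DD) ≤ ((a ^ 2 / 2 * V + 2 * (V / T) * cR a b) * DD -
      cT a b * (DD ^ 2 / q)) / (V * DD) := by
      apply div_le_div_of_nonneg_right h4 (by positivity)
    have e7 : V ^ 2 / (V * DD) = V / DD := by field_simp
    have e8 : ((a ^ 2 / 2 * V + 2 * (V / T) * cR a b) * DD -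
      cT a b * (DD ^ 2 / q)) / (V * DD) =
      a ^ 2 / 2 + 2 * cR a b / T - cT a b * (DD / V) / q := by
      field_simp
    rw [e7, e8] at h6
    linarith
  unfold R2
  rw [one_div_div]
  have h10 : 1 / (2 * cR a b) * (V / DD + cT a b * (DD / V) / q - a ^ 2 / 2) ≤
      1 / (2 * cR a b) * (2 * cR a b / T) :=
    mul_le_mul_of_nonneg_left h5 (by positivity)
  calc T * (1 / (2 * cR a b) * (V / DD + cT a b * (DD / V) / q - a ^ 2 / 2))
      ≤ T * (1 / (2 * cR a b) * (2 * cR a b / T)) := mul_le_mul_of_nonneg_left h10 hT.le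
    _ = 1 := by field_simp

/-- monotonicity in `d` -/
lemma R2_mono {a b d q : ℝ} (h0 : 0 < a) (h1 : a < b) (h2 : b < 1) (hd : 4 ≤ d) (hq : 0 < q)
    (ht : q ≤ 16 * cT a b) : R2 a b 4 q ≤ R2 a b d q := by
  have hR := cR_pos h0 h1 h2
  have hC := cT_pos h0 h1 h2
  unfold R2
  apply mul_le_mul_of_nonneg_left _ (by positivity)
  have hd0 : 0 < d := by linarith
  have e : 1 / d + cT a b * d / q - (1 / (4 : ℝ) + cT a b * 4 / q) =
      (d - 4) * (4 * cT a b * d - q) / (q * d * 4) := by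
    field_simp
    ring
  have h3 : 0 ≤ 4 * cT a b * d - q := by nlinarith
  have h4 : 0 ≤ (d - 4) * (4 * cT a b * d - q) / (q * d * 4) := by
    apply div_nonneg (mul_nonneg (by linarith) h3) (by positivity)
  linarith

lemma R2_anti_q {a b d q q' : ℝ} (h0 : 0 < a) (h1 : a < b) (h2 : b < 1) (hd : 0 < d) (hq : 0 < q)
    (hqq : q ≤ q') : R2 a b d q' ≤ R2 a b d q := by
  have hR := cR_pos h0 h1 h2
  have hC := cT_pos h0 h1 h2
  unfold R2
  apply mul_le_mul_of_nonneg_left _ (by positivity)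
  have : cT a b * d / q' ≤ cT a b * d / q :=
    div_le_div_of_nonneg_left (by positivity) hq hqq
  linarith

end Pool.Agent.Helper27.CB
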