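import Mathlib

/-!
# Project CB: covering density of a planar convex body and its difference body

Definitions.  `E2` is the Euclidean plane, `P2 = ℝ × ℝ` the coordinate plane.
-/

open MeasureTheory Set
open scoped ENNReal Pointwise

namespace Pool.Agent.Helper27.CB

/-- the Euclidean plane -/
abbrev E2 := EuclideanSpace ℝ (Fin 2)

/-- the coordinate plane -/
abbrev P2 := ℝ × ℝ

/-- The density of a countable family of sets: the lower limit of
`(sum of the areas of A i ∩ D_r) / (π r^2)`. -/
noncomputable def dens (A : ℕ → Set E2) : ℝ≥0∞ :=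
  Filter.liminf (fun r : ℝ => (∑' i, volume (A i ∩ Metric.closedBall (0 : E2) r)) /
    ENNReal.ofReal (Real.pi * r ^ 2)) Filter.atTop

/-- The covering density: the infimum of the densities of all coverings of the plane
by congruent copies of `K`. -/
noncomputable def theta (K : Set E2) : ℝ≥0∞ :=
  ⨅ (f : ℕ → (E2 ≃ᵢ E2)) (_ : (⋃ i, f i '' K) = univ), dens (fun i => f i '' K)

/-- the polar body -/
def polarBody (D : Set E2) : Set E2 := {z | ∀ y ∈ D, inner ℝ z y ≤ 1}

/-- a subset of the Euclidean plane in coordinates -/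
def toP (K : Set E2) : Set P2 := {p | (!₂[p.1, p.2] : E2) ∈ K}

/-- rotation by the angle `φ` -/
noncomputable def rot (φ : ℝ) (q : P2) : P2 :=
  (q.1 * Real.cos φ - q.2 * Real.sin φ, q.1 * Real.sin φ + q.2 * Real.cos φ)

/-- the body `K` seen in the coordinate system rotated by `φ` -/
def rb (K : Set P2) (φ : ℝ) : Set P2 := {q | rot φ q ∈ K}

/-- area as a real number -/
noncomputable def vl (L : Set P2) : ℝ := (volume L).toReal

/-- length of the horizontal slice at height `τ` -/
noncomputable def len (L : Set P2) (τ : ℝ) : ℝ := (volume {t : ℝ | (t, τ) ∈ L}).toReal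

/-- height -/
noncomputable def ht (L : Set P2) : ℝ := sSup (Prod.snd '' L) - sInf (Prod.snd '' L)

/-- largest length of a horizontal chord -/
noncomputable def ho (L : Set P2) : ℝ := sSup {s : ℝ | ∃ t τ : ℝ, (t, τ) ∈ L ∧ (t + s, τ) ∈ L}

/-- the set of the heights at which there is a horizontal chord of length `s` -/
def hs (L : Set P2) (s : ℝ) : Set ℝ := {τ : ℝ | ∃ t : ℝ, (t, τ) ∈ L ∧ (t + s, τ) ∈ L}

/-- the measure of the set of the heights at which there is a horizontal chord of length `s` -/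
noncomputable def wd (L : Set P2) (s : ℝ) : ℝ := (volume (hs L s)).toReal

/-- convex bodies in the coordinate plane -/
structure Bd (L : Set P2) : Prop where
  cvx : Convex ℝ L
  cpt : IsCompact L
  int : (interior L).Nonempty

/-- symmetric about the origin -/
def Sy (D : Set P2) : Prop := ∀ z ∈ D, -z ∈ D

/-- determinant -/
def det2 (z y : P2) : ℝ := z.1 * y.2 - z.2 * y.1

/-- `max over y in D of |det (z, y)|` -/
noncomputable def nrm (D : Set P2) (z : P2) : ℝ := sSup ((fun y => |det2 z y|) '' D)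

/-- the polar body, rotated by 90 degrees -/
def plr (D : Set P2) : Set P2 := {z | ∀ y ∈ D, |det2 z y| ≤ 1}

/-- the radial function -/
noncomputable def rad (D : Set P2) (φ : ℝ) : ℝ :=
  sSup {s : ℝ | (s * Real.cos φ, s * Real.sin φ) ∈ D}

/-- the inequality for horizontal p-hexagons in `L` (the area of each is at most `F`) -/
def HexB (L : Set P2) (F : ℝ) : Prop :=
  ∀ (s : ℝ) (p0 p3 p4 p5 : P2), 0 < s → p0 ∈ L → p3 ∈ L → p4 ∈ L → (p4.1 + s, p4.2) ∈ L →
    p5 ∈ L → (p5.1 + s, p5.2) ∈ L → p3.2 ≤ p4.2 → p4.2 ≤ p5.2 → p5.2 ≤ p0.2 →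
    s * ((p0.2 - p3.2) + (p5.2 - p4.2)) ≤ 2 * F

/-- the weight `μ(b)` -/
noncomputable def mu (b : ℝ) : ℝ := (2 - 3 * b ^ 2 + b ^ 3) / 6

/-- the node `σ(b)` -/
noncomputable def sg (b : ℝ) : ℝ := 3 * (1 + b) / (2 * (2 + 2 * b - b ^ 2))

/-- the bound `R(b, d, q)`: `d` is the ratio of the areas of `K - K` and `K`, `q` the square
root of the volume product of `K - K` -/
noncomputable def RR (b d q : ℝ) : ℝ :=
  (1 - b ^ 2) / (8 * mu b ^ 2) * (1 / d + (1 / 3 - b ^ 2 / 2 + b ^ 3 / 3) * d / q - b ^ 2 / 2)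

end Pool.Agent.Helper27.CB
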