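import Pool.Agent.Helper27.CB.Asm4
import Pool.Agent.Helper79.CB.M_DNA
import Pool.Agent.Helper4.CB.M_DNB
import Pool.Agent.Helper51.CB.M_TIL
import Pool.Agent.Helper90.CB.M_HEX
import Pool.Agent.Helper49.CB.M_RBD
import Pool.Agent.Helper72.CB.M_SLC
import Pool.Agent.Helper33.CB.M_SLK
import Pool.Agent.Helper15.CB.M_LAY
import Pool.Agent.Helper33.CB.M_WCO
import Pool.Agent.Helper49.CB.M_HXW
import Pool.Agent.Helper15.CB.M_CRA
import Pool.Agent.Helper15.CB.M_CRB
import Pool.Agent.Helper49.CB.M_RAD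
import Pool.Agent.Helper3.CB.M_CTN
import Pool.Agent.Helper3.CB.M_POL
import Pool.Agent.Helper3.CB.M_DIS
import Pool.Agent.Helper49.CB.M_PLR
import Pool.Agent.Helper90.CB.M_BRM
import Pool.Agent.Helper24.CB.M_TRF
import Pool.Agent.Helper71.CB.M_ONT
import Pool.Agent.Helper81.CB.M_HXG

/-! # Project CB: the main theorem -/

open MeasureTheory Set
open scoped ENNReal Pointwise

namespace Pool.Agent.Helper27.CB

lemma fCTN : StCTN := Pool.Agent.Helper3.CB.hCTN
lemma fPLR : StPLR := Pool.Agent.Helper49.CB.hPLR fCTN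
lemma fSLC : StSLC := Pool.Agent.Helper72.CB.hSLC
lemma fSLK : StSLK := Pool.Agent.Helper33.CB.hSLK
lemma fRBD : StRBD := Pool.Agent.Helper49.CB.hRBD
lemma fRAD : StRAD := Pool.Agent.Helper49.CB.hRAD
lemma fLAY : StLAY := Pool.Agent.Helper15.CB.hLAY fSLC fSLK
lemma fWCO : StWCO := Pool.Agent.Helper33.CB.hWCO fSLK
lemma fHXW : StHXW := Pool.Agent.Helper49.CB.hHXW fSLK
lemma fCRA : StCRA := Pool.Agent.Helper15.CB.hCRA
lemma fCRB : StCRB := Pool.Agent.Helper15.CB.hCRB fRBD fSLC
lemma fPOL : StPOL := Pool.Agent.Helper3.CB.Pol.hPOL fCTN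
lemma fDIS : StDIS := Pool.Agent.Helper3.CB.Dis.hDIS fCTN fPLR
lemma fBRM : StBRM := Pool.Agent.Helper90.CB.hBRM fSLC fSLK fLAY fRAD
lemma fTRF : StTRF := Pool.Agent.Helper24.CB.hTRF
lemma fONT : StONT := Pool.Agent.Helper71.CB.hONT
lemma fHXG : StHXG := Pool.Agent.Helper81.CB.hHXG fRBD fSLK fSLC
lemma fHEX : StHEX := Pool.Agent.Helper90.CB.hHEX
  (Pool.Agent.Helper4.CB.hDNB Pool.Agent.Helper79.CB.hDNA) Pool.Agent.Helper51.CB.hTIL

/-- positivity of the volume of a body -/
lemma vl_pos {L : Set P2} (hL : Bd L) : 0 < vl L := by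
  unfold vl
  refine ENNReal.toReal_pos ?_ hL.cpt.measure_lt_top.ne
  obtain ⟨x, hx⟩ := hL.int
  have h1 : 0 < volume (interior L) := isOpen_interior.measure_pos volume ⟨x, hx⟩
  exact (h1.trans_le (measure_mono interior_subset)).ne'

/-- The main inequality, in the coordinate plane. -/
theorem main (K : Set E2) (hc : Convex ℝ K) (hk : IsCompact K) (hi : (interior K).Nonempty) :
    theta K ≠ ⊤ ∧ ∀ a b : ℝ, 0 < a → a < b → b < 1 →
      (theta K).toReal * R2 a b (vl (toP K - toP K) / vl (toP K))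
        (Real.sqrt (vl (toP K - toP K) * vl (plr (toP K - toP K)))) ≤ 1 := by
  obtain ⟨hB, hv, hvD, hvP, hV0⟩ := fTRF K hc hk hi
  obtain ⟨htop, hhex⟩ := fHEX K hc hk hi
  refine ⟨htop, ?_⟩
  intro a b h0 h1 h2
  set P := toP K with hP
  obtain ⟨hD, hS, -, -⟩ := fRAD P hB
  have hPl := (fPLR (P - P) hD hS).1
  have hDD := vl_pos hD
  have hPp := vl_pos hPl
  obtain ⟨-, -, -, -, -, hn0, -, -⟩ := fCTN (P - P) hD hS
  have hJ : 0 ≤ ∫ z in P - P, nrm (P - P) z := integral_nonneg (fun z => hn0 z)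
  rcases (ENNReal.toReal_nonneg (a := theta K)).eq_or_lt with hT | hT
  · rw [← hT, zero_mul]; norm_num
  · have hVr : (volume K).toReal = vl P := by
      rw [hv, ENNReal.toReal_ofReal hV0.le]
    have hF : ∀ φ, HexB (rb P φ) (vl P / (theta K).toReal) := by
      apply hhex _ _ hT
      rw [hVr, mul_div_cancel₀ _ hT.ne']
    have hpt : ∀ φ, (∫ τ, len (rb P φ) τ ^ 3) ≤
        3 * ((a ^ 2 / 2 * vl P + 2 * (vl P / (theta K).toReal) * cR a b) * ho (rb P φ) ^ 2 -
          cT a b * (ho (rb P φ) ^ 3 * ht (rb P φ))) := by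
      intro φ
      have := pdi2 fRBD fLAY fWCO fONT fHXW fHXG P hB (vl P / (theta K).toReal) a b hF h0 h1 h2 φ
      rwa [(fRBD P hB φ).2] at this
    have hmain := integratedG fCRA fCRB fRAD fCTN fPOL P hB _ _ hpt
    exact coreG hV0 hDD hPp hJ hT h0 h1 h2 (fDIS (P - P) hD hS) hmain

/-- area as a real number -/
noncomputable def area (K : Set E2) : ℝ := (volume K).toReal

/-- the first number: `q ^ 2 ≤ 9.09` -/
lemma numA {q : ℝ} (hq0 : 0 < q) (hq : q ^ 2 ≤ 909 / 100) :
    Real.sqrt 27 / (2 * Real.pi) ≤ R2 (47 / 100) (69 / 100) 4 q := by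
  have hq1 : q ≤ 301497 / 100000 := by
    by_contra hcon
    push Not at hcon
    nlinarith
  have h1 := R2_anti_q (a := 47 / 100) (b := 69 / 100) (d := 4) (by norm_num) (by norm_num)
    (by norm_num) (by norm_num) hq0 hq1
  refine le_trans ?_ h1
  have hpi1 := Real.pi_gt_d6
  have h6 : Real.sqrt 27 / (2 * Real.pi) ≤ (519616 / 100000) / (2 * 3.141592) := by
    apply div_le_div₀ (by norm_num) _ (by norm_num) (by linarith)
    rw [show (519616 / 100000 : ℝ) = Real.sqrt ((519616 / 100000) ^ 2) by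
      rw [Real.sqrt_sq (by norm_num)]]
    exact Real.sqrt_le_sqrt (by norm_num)
  refine h6.trans ?_
  unfold R2 cR cT wc wm
  norm_num

/-- the second number: `q ^ 2 ≤ 9.5` -/
lemma numB {q : ℝ} (hq0 : 0 < q) (hq : q ^ 2 ≤ 95 / 10) :
    (1 : ℝ) / (12252 / 10000) ≤ R2 (29 / 100) (70 / 100) 4 q := by
  have hq1 : q ≤ 308221 / 100000 := by
    by_contra hcon
    push Not at hcon
    nlinarith
  have h1 := R2_anti_q (a := 29 / 100) (b := 70 / 100) (d := 4) (by norm_num) (by norm_num)
    (by norm_num) (by norm_num) hq0 hq1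
  refine le_trans ?_ h1
  unfold R2 cR cT wc wm
  norm_num

/-- the main theorem in the Euclidean plane -/
theorem mainE (K : Set E2) (hc : Convex ℝ K) (hk : IsCompact K) (hi : (interior K).Nonempty) :
    theta K ≠ ⊤ ∧ ∀ a b : ℝ, 0 < a → a < b → b < 1 →
      (theta K).toReal * R2 a b (area (K - K) / area K)
        (Real.sqrt (area (K - K) * area (polarBody (K - K)))) ≤ 1 := by
  obtain ⟨hB, hv, hvD, hvP, hV0⟩ := fTRF K hc hk hi
  have hD := (fRAD (toP K) hB).1
  have hS := (fRAD (toP K) hB).2.1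
  have hPl := (fPLR (toP K - toP K) hD hS).1
  have e1 : area K = vl (toP K) := by
    unfold area; rw [hv, ENNReal.toReal_ofReal hV0.le]
  have e2 : area (K - K) = vl (toP K - toP K) := by
    unfold area; rw [hvD, ENNReal.toReal_ofReal (vl_pos hD).le]
  have e3 : area (polarBody (K - K)) = vl (plr (toP K - toP K)) := by
    unfold area; rw [hvP, ENNReal.toReal_ofReal (vl_pos hPl).le]
  rw [e1, e2, e3]
  exact main K hc hk hi

/-- positivity and the Brunn-Minkowski inequality in the Euclidean plane -/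
lemma areas (K : Set E2) (hc : Convex ℝ K) (hk : IsCompact K) (hi : (interior K).Nonempty) :
    0 < area K ∧ 4 * area K ≤ area (K - K) ∧ 0 < area (polarBody (K - K)) := by
  obtain ⟨hB, hv, hvD, hvP, hV0⟩ := fTRF K hc hk hi
  have hD := (fRAD (toP K) hB).1
  have hS := (fRAD (toP K) hB).2.1
  have hPl := (fPLR (toP K - toP K) hD hS).1
  have e1 : area K = vl (toP K) := by
    unfold area; rw [hv, ENNReal.toReal_ofReal hV0.le]
  have e2 : area (K - K) = vl (toP K - toP K) := by
    unfold area; rw [hvD, ENNReal.toReal_ofReal (vl_pos hD).le]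
  have e3 : area (polarBody (K - K)) = vl (plr (toP K - toP K)) := by
    unfold area; rw [hvP, ENNReal.toReal_ofReal (vl_pos hPl).le]
  rw [e1, e2, e3]
  exact ⟨hV0, fBRM (toP K) hB, vl_pos hPl⟩

/-- from the inequality to the bound of the covering density -/
lemma bound {K : Set E2} {R c : ℝ} (hc : 0 < c) (ht : theta K ≠ ⊤) (h : (theta K).toReal * R ≤ 1)
    (hR : 1 / c ≤ R) : theta K ≤ ENNReal.ofReal c := by
  rw [← ENNReal.ofReal_toReal ht]
  apply ENNReal.ofReal_le_ofReal
  have h0 : 0 ≤ (theta K).toReal := ENNReal.toReal_nonneg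
  have h1 : (theta K).toReal * (1 / c) ≤ 1 := (mul_le_mul_of_nonneg_left hR h0).trans h
  rw [mul_one_div, div_le_one hc] at h1
  exact h1

/-- the final statement -/
theorem final (K : Set E2) (hc : Convex ℝ K) (hk : IsCompact K) (hi : (interior K).Nonempty) :
    (area (K - K) * area (polarBody (K - K)) ≤ 909 / 100 →
      theta K ≤ ENNReal.ofReal (2 * Real.pi / Real.sqrt 27)) ∧
    (area (K - K) * area (polarBody (K - K)) ≤ 95 / 10 →
      theta K ≤ ENNReal.ofReal (12252 / 10000)) ∧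
    (∀ a b : ℝ, 0 < a → a < b → b < 1 →
      (theta K).toReal * R2 a b (area (K - K) / area K)
        (Real.sqrt (area (K - K) * area (polarBody (K - K)))) ≤ 1) ∧
    theta K ≠ ⊤ := by
  obtain ⟨ht, hm⟩ := mainE K hc hk hi
  obtain ⟨hA, hB, hP⟩ := areas K hc hk hi
  have hD : 0 < area (K - K) := by linarith
  have hd : 4 ≤ area (K - K) / area K := by
    rw [le_div_iff₀ hA]; exact hB
  set d := area (K - K) / area K with hdd
  set p := area (K - K) * area (polarBody (K - K)) with hp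
  have hp0 : 0 < p := by positivity
  have hq0 : 0 < Real.sqrt p := Real.sqrt_pos.2 hp0
  have hq2 : Real.sqrt p ^ 2 = p := Real.sq_sqrt hp0.le
  refine ⟨?_, ?_, hm, ht⟩
  · intro h
    have h1 := numA hq0 (by rw [hq2]; exact h)
    have hq1 : Real.sqrt p ≤ 302 / 100 := by
      by_contra hcon
      push Not at hcon
      nlinarith
    have h2 := R2_mono (a := 47 / 100) (b := 69 / 100) (by norm_num) (by norm_num) (by norm_num)
      hd hq0 (hq1.trans (by unfold cT wm; norm_num))
    have h3 := hm (47 / 100) (69 / 100) (by norm_num) (by norm_num) (by norm_num)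
    apply bound (R := R2 (47 / 100) (69 / 100) d (Real.sqrt p)) (by positivity) ht h3
    rw [one_div_div]
    exact h1.trans h2
  · intro h
    have h1 := numB hq0 (by rw [hq2]; exact h)
    have hq1 : Real.sqrt p ≤ 309 / 100 := by
      by_contra hcon
      push Not at hcon
      nlinarith
    have h2 := R2_mono (a := 29 / 100) (b := 70 / 100) (by norm_num) (by norm_num) (by norm_num)
      hd hq0 (hq1.trans (by unfold cT wm; norm_num))
    have h3 := hm (29 / 100) (70 / 100) (by norm_num) (by norm_num) (by norm_num)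
    exact bound (by norm_num) ht h3 (h1.trans h2)

end Pool.Agent.Helper27.CB
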