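import Pool.Agent.Helper27.CB.Defs

/-! # Project CB: the statements of the modules -/

open MeasureTheory Set
open scoped ENNReal Pointwise

namespace Pool.Agent.Helper27.CB

/-- DNA: counting in a lattice (about 120 lines).
PROOF. Write v(k) = k.1 z + k.2 d, det = z 0 * d 1 - z 1 * d 0 > 0. Let Q = {a z + b d : 0 <= a, b < 1}: its volume is det (image of the unit square under a
linear map of determinant det: MeasureTheory.Measure.addHaar_image_linearMap, or compute with EuclideanSpace.volume_preserving_measurableEquiv), and the translates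
Q + v(k) are pairwise disjoint (the coordinates of x in the basis z, d are unique, their integer parts are k). Let R with K in closedBall 0 R and Q in
closedBall 0 R (K is bounded), C = 2 R. If (K + v(k)) meets closedBall 0 r then |v(k)| <= r + R, hence Q + v(k) lies in closedBall 0 (r + 2R). Let
S = {k : |v(k)| <= r + R}. Each term of the sum is <= volume K if k in S and 0 otherwise, so the sum is <= (number of elements of S) * volume K (ENNReal, e.g.
tsum of an indicator = count), and (number of S) * det = sum over S of volume (Q + v(k)) = volume of the disjoint union (measure_iUnion / tsum over a countable type)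
<= volume (closedBall 0 (r + 2R)) = ofReal (pi (r+2R)^2) (EuclideanSpace.volume_closedBall_fin_two or EuclideanSpace.volume_closedBall). -/
def StDNA : Prop := ∀ (K : Set E2), IsCompact K → ∀ z d : E2, 0 < z 0 * d 1 - z 1 * d 0 →
  ∃ C : ℝ, 0 ≤ C ∧ ∀ r : ℝ, 0 ≤ r →
    (∑' k : ℤ × ℤ, volume (((fun x : E2 => x + ((k.1 : ℝ) • z + (k.2 : ℝ) • d)) '' K) ∩
      Metric.closedBall (0 : E2) r)) * ENNReal.ofReal (z 0 * d 1 - z 1 * d 0) ≤
      volume K * ENNReal.ofReal (Real.pi * (r + C) ^ 2)

/-- DNB: the density of a double lattice covering (about 120 lines), uses StDNA.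
PROOF. The countable family: the sets K + v (v = m z + n d) and p - K + v, indexed by (ℤ × ℤ) × Bool, which is in bijection with ℕ (Denumerable or
nonempty_equiv_of_countable). They are images of K under the isometries x ↦ x + v (IsometryEquiv.addRight) and x ↦ (p + v) - x (IsometryEquiv.subLeft). By the
hypothesis they cover: X - v in K gives X in K + v; p - (X - v) =: y in K gives X = (p + v) - y. So theta K <= dens of this family (iInf₂_le). For r > 0 the sum
over the family (Equiv.tsum_eq, ENNReal.tsum_prod / tsum over Bool) is the sum for K plus the sum for the set K' = p - K (compact, volume K' = volume K), and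
StDNA for K and for K' bounds each one times det by volume K * ofReal (pi (r+C)^2). So the quotient in dens times ofReal det is at most
2 volume K * ofReal((r+C)^2/r^2), which tends to 2 volume K; take the lower limit (liminf <= limit of an upper bound: Filter.liminf_le_liminf, Tendsto.liminf_eq;
ENNReal.mul_le_iff / divide by the finite positive constant ofReal det first). -/
def StDNB : Prop := ∀ (K : Set E2), IsCompact K → ∀ z d p : E2, 0 < z 0 * d 1 - z 1 * d 0 →
  (∀ X : E2, ∃ m n : ℤ, X - ((m : ℝ) • z + (n : ℝ) • d) ∈ K ∨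
    p - (X - ((m : ℝ) • z + (n : ℝ) • d)) ∈ K) →
  theta K * ENNReal.ofReal (z 0 * d 1 - z 1 * d 0) ≤ 2 * volume K

/-- TIL: the double lattice covering given by a p-hexagon (pure algebra, about 150 lines). The height of x is h x = z 0 * x 1 - z 1 * x 0 (linear, h z = 0).
PROOF. Put d = (p0 - p3) + (p5 - p4), so h d = (h p0 - h p3) + (h p5 - h p4) > 0; a vector Y with h Y = 0 is a real multiple of z (z is not 0 since
h p3 < h p0). Choose n = floor of (h X - h p4)/h d and Y = X - n d, so h p4 <= h Y < h p4 + h d. It suffices to find m with Y - m z in K or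
(p0+p5+z) - (Y - m z) in K, or the same with n + 1 (Y - d in place of Y).
(A) h p4 <= h Y <= h p5: choose t in [0,1] with h Y = (1-t) h p4 + t h p5, write Y = (1-t) p4 + t p5 + a z, m = floor a, a' = a - m in [0,1):
 Y - m z = (1-t)(p4 + a' z) + t (p5 + a' z) in K (p4 + a' z is between p4 and p4 + z).
(B) h p5 < h Y <= h p0: t = (h Y - h p5)/(h p0 - h p5) in (0,1], Y = (1-t) p5 + t p0 + a z, m, a' as before. If a' <= 1 - t then
 Y - m z = (1-t) p5 + a' z + t p0 in K ((1-t) p5 + a' z = (1-t)(p5 + (a'/(1-t)) z)). If a' > 1 - t then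
 (p0+p5+z) - (Y - m z) = t p5 + (1-a') z + (1-t) p0 with 0 <= 1 - a' < t, in K in the same way.
(C) h p0 < h Y <= h p0 + h p5 - h p4: Z = (p0+p5+z) - Y has height in [h p4, h p5); as in (A) Z = (1-t) p4 + t p5 + a z; take m = -(floor a): Z + m z in K
 means (p0+p5+z) - (Y - m z) in K.
(D) h p0 + h p5 - h p4 < h Y < h p4 + h d = h p0 - h p3 + h p5: put A = p0 + p5 - p4, A' = p4 + d = p0 - p3 + p5 (h A' - h A = h p4 - h p3 > 0),
 Y = (1-t) A + t A' + a z with t in (0,1), m = floor a, a' = a - m. If a' <= t then (Y - m z) - d = (1-t) p3 + t p4 + a' z in K (t p4 + a' z = t (p4 + (a'/t) z)):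
 first alternative with n + 1. If a' > t then (p0+p5+z) - (Y - m z) = (1-t) p4 + t p3 + (1-a') z with 0 < 1 - a' < 1 - t, in K: second alternative with n. -/
def StTIL : Prop := ∀ (K : Set E2), Convex ℝ K → ∀ z p0 p3 p4 p5 : E2,
  p0 ∈ K → p3 ∈ K → p4 ∈ K → p4 + z ∈ K → p5 ∈ K → p5 + z ∈ K →
  z 0 * p3 1 - z 1 * p3 0 ≤ z 0 * p4 1 - z 1 * p4 0 →
  z 0 * p4 1 - z 1 * p4 0 ≤ z 0 * p5 1 - z 1 * p5 0 →
  z 0 * p5 1 - z 1 * p5 0 ≤ z 0 * p0 1 - z 1 * p0 0 →
  z 0 * p3 1 - z 1 * p3 0 < z 0 * p0 1 - z 1 * p0 0 →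
  ∀ X : E2, ∃ m n : ℤ, X - ((m : ℝ) • z + (n : ℝ) • ((p0 - p3) + (p5 - p4))) ∈ K ∨
    (p0 + p5 + z) - (X - ((m : ℝ) • z + (n : ℝ) • ((p0 - p3) + (p5 - p4)))) ∈ K

/-- HEX: the covering density and the p-hexagons of all directions (about 100 lines), uses StDNB and StTIL.
PROOF. Let e = (cos φ, sin φ) in E2. For q in P2 put E q = !₂[(rot φ q).1, (rot φ q).2]; q in rb (toP K) φ iff E q in K; E is additive, E (q.1 + s, q.2) = E q + s e,
and for z = s e the height z 0 * x 1 - z 1 * x 0 of x = E q is s * q.2 (cos^2 + sin^2 = 1). So for a p-hexagon s, p0, p3, p4, p5 of rb (toP K) φ with p3.2 < p0.2,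
StTIL (z = s e, heights multiplied by s > 0) gives the covering condition with d = (E p0 - E p3) + (E p5 - E p4) and
z 0 * d 1 - z 1 * d 0 = s * ((p0.2 - p3.2) + (p5.2 - p4.2)) > 0, and StDNB gives theta K * ofReal (that) <= 2 volume K. (1) theta K ≠ ⊤: such a p-hexagon exists
with φ = 0 because the interior is nonempty (a small square in K: p4 = p5 = left midpoint etc.), and volume K < ⊤. (2) With T = (theta K).toReal > 0, V = volume K:
T * (s ((p0.2-p3.2)+(p5.2-p4.2))) <= 2 V <= 2 T F, divide by T. If p3.2 = p0.2 then all heights agree, the left side of HexB is 0 and F >= 0 since 0 <= V <= T F. -/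
def StHEX : Prop := ∀ (K : Set E2), Convex ℝ K → IsCompact K → (interior K).Nonempty →
  theta K ≠ ⊤ ∧ ∀ F : ℝ, (volume K).toReal ≤ (theta K).toReal * F → 0 < (theta K).toReal →
    ∀ φ : ℝ, HexB (rb (toP K) φ) F

/-- RBD: rotated bodies (about 60 lines). PROOF. rot φ is a linear bijection of ℝ × ℝ of determinant 1 with inverse rot (-φ), continuous; rb K φ is the
preimage = the image of K under rot (-φ). Convexity, compactness (IsCompact.image), nonempty interior (homeomorphism), volume: MeasureTheory.Measure.addHaar_preimage_linearMap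
with determinant 1 (or Real.map_linearMap_volume_pi_eq_smul_volume_pi after a transfer; LinearMap.det of a map of ℝ × ℝ by LinearMap.det_toLin with the basis
Basis.finTwoProd). -/
def StRBD : Prop := ∀ (K : Set P2), Bd K → ∀ φ : ℝ, Bd (rb K φ) ∧ vl (rb K φ) = vl K

/-- SLC: slices (about 80 lines). PROOF. For each τ the set S τ = {t : (t, τ) in L} is compact and convex (preimage under t ↦ (t, τ), a closed embedding), so it
is empty or a segment Icc a b, of measure b - a = len L τ. For s >= 0: there is t with t, t + s in Icc a b iff the slice is nonempty and s <= b - a. Measurable: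
measurable_measure_prodMk_right (L is closed, so measurable). len L τ <= ho L: b - a belongs to the set whose supremum is ho L, this set is bounded above (L is
bounded) and nonempty (0, L nonempty) so also ho L >= 0 for empty slices. Empty slice: measure 0. -/
def StSLC : Prop := ∀ (L : Set P2), Bd L →
  (∀ τ s : ℝ, 0 ≤ s → (τ ∈ hs L s ↔ τ ∈ Prod.snd '' L ∧ s ≤ len L τ)) ∧
  Measurable (len L) ∧ (∀ τ, 0 ≤ len L τ ∧ len L τ ≤ ho L) ∧
  (∀ τ, τ ∉ Prod.snd '' L → len L τ = 0)

/-- SLK: the sets hs L s (about 130 lines). PROOF. hs L s is the image under Prod.snd of the compact convex set {q in L : (q.1 + s, q.2) in L}: compact, convex.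
The set M = {s : there are t, τ with (t,τ), (t+s,τ) in L} is the image of the compact convex set {(p,q) in L × L : p.2 = q.2} under q.1 - p.1, so it is compact and
convex, contains 0, and its supremum ho L belongs to it: hs L s is nonempty for 0 <= s <= ho L, and empty for s > ho L. Monotone: for 0 <= s <= s', if t, t + s' are in
the (convex) slice then so is t + s. Combination: (t,x),(t+s,x),(t',x'),(t'+s',x') in L, take the convex combinations with weights a, a'. hs L 0 = Prod.snd '' L by
definition. ho L > 0, ht L > 0: L contains a small square because its interior is nonempty (and the sets are bounded, so the suprema are attained/bounds hold). -/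
def StSLK : Prop := ∀ (L : Set P2), Bd L →
  (∀ s, IsCompact (hs L s) ∧ Convex ℝ (hs L s)) ∧
  (∀ s, 0 ≤ s → s ≤ ho L → (hs L s).Nonempty) ∧ (∀ s, ho L < s → hs L s = ∅) ∧
  (∀ s s', 0 ≤ s → s ≤ s' → hs L s' ⊆ hs L s) ∧
  (∀ s s' x x' a a' : ℝ, x ∈ hs L s → x' ∈ hs L s' → 0 ≤ a → 0 ≤ a' → a + a' = 1 →
    a * x + a' * x' ∈ hs L (a * s + a' * s')) ∧
  hs L 0 = Prod.snd '' L ∧ 0 < ho L ∧ 0 < ht L

/-- LAY: layer cake formulas (about 130 lines), uses StSLC and StSLK. PROOF. (1) Tonelli: volume L = ∫⁻ τ, volume {t | (t,τ) in L} (Measure.prod_apply_symm), every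
slice is finite, all functions bounded with compact support. (2), (3): for s > 0 hs L s = {τ | s <= len L τ} up to heights with empty slice where len = 0 < s (StSLC), and
hs L s is empty for s > ho L. Layer cake: ∫⁻ τ, ofReal (len^p) ... e.g. MeasureTheory.lintegral_comp_eq_lintegral_meas_le_mul with g = 1 (p = 1) and g t = 3 t^2
(len^3 = ∫_0^len 3 t^2), or Tonelli for the indicator of {(τ,s) : 0 < s <= len L τ}; then restrict to s <= ho L. -/
def StLAY : Prop := ∀ (L : Set P2), Bd L →
  (∫ τ, len L τ) = vl L ∧ (∫ s in (0 : ℝ)..ho L, wd L s) = vl L ∧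
  (∫ τ, len L τ ^ 3) = 3 * ∫ s in (0 : ℝ)..ho L, s ^ 2 * wd L s

/-- WCO: the function wd is concave (about 100 lines), uses StSLK. PROOF. hs L s is a compact convex subset of ℝ, nonempty for 0 <= s <= ho L, so it is
Icc (sInf) (sSup) and wd L s = sSup - sInf (Real.volume_Icc). Concave: by the combination property a sSup(hs L s) + a' sSup(hs L s') is in hs L (a s + a' s'), the same for
the infima. Antitone: hs L s' ⊆ hs L s. wd L 0 = ht L: hs L 0 = Prod.snd '' L. Positive for 0 <= s < ho L: wd L s >= (1 - s/ho L) wd L 0 + (s/ho L) wd L (ho L) >= (1 - s/ho L) ht L > 0. -/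
def StWCO : Prop := ∀ (L : Set P2), Bd L →
  0 < ho L ∧ 0 < ht L ∧ ConcaveOn ℝ (Icc 0 (ho L)) (wd L) ∧ AntitoneOn (wd L) (Icc 0 (ho L)) ∧
  wd L 0 = ht L ∧ (∀ s, 0 ≤ wd L s) ∧ (∀ s, 0 ≤ s → s < ho L → 0 < wd L s)

/-- ONE: the inequality for concave functions of one variable (about 150 lines).
PROOF. By the substitution s = c t assume c = 1 (or work directly). w is antitone, so interval integrable on every subinterval; products with polynomials too.
Split at b (after scaling). Put k t = t^2 - b^2/2.
(I) ∫_0^b k w <= -(b^3/6) w 0: for 0 < t <= b let q t = (w t - w 0)/t, antitone on (0,b] by concavity. With t0 = b/sqrt 2, t k t (q t - q t0) <= 0 for all t in (0,b]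
 (k < 0 and q t >= q t0 for t < t0; k >= 0 and q t <= q t0 for t >= t0). So ∫_0^b k t (w t - w 0) <= q t0 * ∫_0^b t k t = q t0 (b^4/4 - b^4/4) = 0, and ∫_0^b k = b^3/3 - b^3/2 = -b^3/6.
(II) ∫_b^1 k w <= mu b * w (sg b): k > 0 on [b,1], ∫_b^1 k = 1/3 - b^3/3 - (b^2/2)(1-b) = 1/3 - b^2/2 + b^3/6 = mu b > 0, ∫_b^1 t k t dt = 1/4 - b^4/4 - (b^2/4)(1-b^2) = (1-b^2)/4 and
 sg b * mu b = (1-b^2)/4 (mu b = (1-b)(2+2b-b^2)/6). b < sg b < 1 (elementary). By concavity there is a supporting line at the interior point sg b: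
 a real p with w t <= w (sg b) + p (t - sg b) for all t in [0,1] (one may use ConcaveOn slopes; or Jensen's inequality for the measure k dt/mu b on [b,1]:
 ConcaveOn.le_map_integral-type lemmas). Integrate: ∫_b^1 k w <= w (sg b) mu b + p ((1-b^2)/4 - sg b mu b) = mu b w (sg b).
Sum: ∫_0^1 (t^2 - b^2/2) w <= -(b^3/6) w 0 + mu b w (sg b). -/
def StONE : Prop := ∀ (w : ℝ → ℝ) (c b : ℝ), 0 < c → 0 < b → b < 1 →
  ConcaveOn ℝ (Icc 0 c) w → AntitoneOn w (Icc 0 c) →
  (∫ s in (0 : ℝ)..c, s ^ 2 * w s) ≤ b ^ 2 / 2 * c ^ 2 * (∫ s in (0 : ℝ)..c, w s) -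
    b ^ 3 / 6 * c ^ 3 * w 0 + mu b * c ^ 3 * w (sg b * c)

/-- HXW: the p-hexagon inequality in terms of wd (about 60 lines), uses StSLK. PROOF. hs L s is compact, convex, nonempty: it is Icc α β with α, β in hs L s and
wd L s = β - α. Take p4 = (t, α) with (t+s, α) in L, p5 = (t', β) with (t'+s, β) in L, p0, p3 in L of largest and smallest height (L compact): ht L = p0.2 - p3.2.
HexB gives s (ht L + (β - α)) <= 2 F. -/
def StHXW : Prop := ∀ (L : Set P2) (F : ℝ), Bd L → HexB L F → ∀ s : ℝ, 0 < s → s ≤ ho L →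
  s * (ht L + wd L s) ≤ 2 * F

/-- PDI: the inequality for one direction; assembled by the owner from LAY, WCO, ONE, HXW. -/
def StPDI : Prop := ∀ (L : Set P2) (F b : ℝ), Bd L → HexB L F → 0 < b → b < 1 →
  (∫ τ, len L τ ^ 3) ≤ 3 * (b ^ 2 / 2 * ho L ^ 2 * vl L + 2 * F * mu b / sg b * ho L ^ 2 -
    (mu b + b ^ 3 / 6) * ho L ^ 3 * ht L)

/-- CRA: the covariogram in polar coordinates (about 100 lines). PROOF. Let g z = volume {x | x in K and x + z in K}. Tonelli on P2 × P2 (K closed, so measurable):
∫⁻ z, g z = ∫⁻ z ∫⁻ x 1_K(x) 1_K(x+z) = ∫⁻ x 1_K(x) (∫⁻ z 1_K(x+z)) = ∫⁻ x 1_K(x) volume K = volume K ^ 2 (translation invariance). g is measurable. Polar coordinates: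
lintegral_comp_polarCoord_symm (∫⁻ over polarCoord.target = Ioi 0 ×ˢ Ioo (-π) π of ofReal p.1 • g (polarCoord.symm p) = ∫⁻ g), then Tonelli for the product set (swap the order). -/
def StCRA : Prop := ∀ (K : Set P2), IsCompact K →
  (∫⁻ φ in Ioo (-Real.pi) Real.pi, ∫⁻ r in Ioi (0 : ℝ), ENNReal.ofReal r *
    volume {x : P2 | x ∈ K ∧ x + (r * Real.cos φ, r * Real.sin φ) ∈ K}) = volume K ^ 2

/-- CRB: the covariogram on one ray (about 120 lines), uses StRBD and StSLC. PROOF. For r > 0 let B = {x | x in K and x + r e_φ in K}. rot φ preserves the volume and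
rot φ (q.1 + r, q.2) = rot φ q + r e_φ, so volume B = volume {q | q in rb K φ and (q.1 + r, q.2) in rb K φ} = ∫⁻ τ, volume {t | t and t + r in the slice at height τ}
(Measure.prod_apply_symm); the slice is empty or Icc a b with b - a = len, and {t : a <= t, t + r <= b} has measure ofReal (len - r). Then Tonelli:
∫⁻ r in Ioi 0, ofReal r * ∫⁻ τ, ofReal (len τ - r) = ∫⁻ τ, ∫⁻ r in Ioi 0, ofReal r * ofReal (len τ - r) = ∫⁻ τ, ofReal (len τ ^3 / 6) (∫_0^l r (l - r) dr = l^3/6),
and this is ofReal of the Bochner integral (len bounded, zero outside a compact interval: integrable). The map rot φ is measure preserving: volume (rot φ ⁻¹' S) = volume S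
for measurable S (linear map of determinant 1). -/
def StCRB : Prop := ∀ (K : Set P2), Bd K → ∀ φ : ℝ,
  (∫⁻ r in Ioi (0 : ℝ), ENNReal.ofReal r *
    volume {x : P2 | x ∈ K ∧ x + (r * Real.cos φ, r * Real.sin φ) ∈ K}) =
  ENNReal.ofReal ((∫ τ, len (rb K φ) τ ^ 3) / 6)

/-- RAD: widths of K and the difference body (about 80 lines). PROOF. K - K is convex (Convex.sub), compact (IsCompact.sub), symmetric, its interior contains a
translate of the interior of K (K - x0). For the sets: {s | exists t τ, (t,τ) in rb K φ, (t+s,τ) in rb K φ} = {s | s e_φ in K - K}, because rot φ (t+s,τ) - rot φ (t,τ) = s e_φ and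
conversely if s e_φ = x - y, take q = rot (-φ) y. Heights: for x = rot φ q one has q.2 = det2 e_φ x (e_φ = (cos φ, sin φ)), so Prod.snd '' rb K φ = (det2 e_φ) '' K and
ht = sup - inf = max over x, y in K of det2 e_φ (x - y) = nrm (K-K) e_φ (compactness; the set of the values det2 e_φ (x-y) is symmetric). -/
def StRAD : Prop := ∀ (K : Set P2), Bd K → Bd (K - K) ∧ Sy (K - K) ∧
  (∀ φ, ho (rb K φ) = rad (K - K) φ) ∧
  (∀ φ, ht (rb K φ) = nrm (K - K) (Real.cos φ, Real.sin φ))

/-- CTN: continuity of the radial function and of the norm (about 130 lines). PROOF. 0 is in the interior of D (x in the interior, -x in D: midpoint), D bounded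
closed. rad D φ = 1/gauge D e_φ (gauge continuous: continuous_gauge; gauge positive because D is bounded: gauge_pos or the lemma for bounded sets; s e_φ in D iff s gauge <= 1 for s >= 0
because D is closed convex and contains 0 in the interior: gauge_le_one_iff_mem_closure / gauge_le_one_iff_mem). Note that for s < 0 membership is allowed in the set defining rad but the
supremum is over a set containing positive numbers. nrm D: |det2 z y| is continuous in (z,y), D compact: nrm D z = max, IsCompact.continuous_sSup or 'Lipschitz'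
argument nrm (z+z') <= nrm z + nrm z', nrm z <= C |z|. Homogeneity, nonnegativity clear; nrm D z > 0 for z ≠ 0 because D contains a small disc. -/
def StCTN : Prop := ∀ (D : Set P2), Bd D → Sy D →
  Continuous (rad D) ∧ Continuous (nrm D) ∧ (∀ φ, 0 < rad D φ) ∧
  (∀ φ s, 0 ≤ s → ((s * Real.cos φ, s * Real.sin φ) ∈ D ↔ s ≤ rad D φ)) ∧
  (∀ (a : ℝ) (z : P2), 0 ≤ a → nrm D (a • z) = a * nrm D z) ∧ (∀ z, 0 ≤ nrm D z) ∧
  (∀ z, z ≠ 0 → 0 < nrm D z) ∧ (∀ z y, y ∈ D → |det2 z y| ≤ nrm D z)

/-- POL: polar coordinates (about 130 lines), uses StCTN. PROOF. integral_comp_polarCoord_symm (or the lintegral version) for F = indicator of D and for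
F = indicator of D times nrm D: F(r e_φ) = 1 iff r <= rad D φ for r > 0; ∫_0^{rad} r dr = rad^2/2; nrm D (r e_φ) = r nrm D e_φ, ∫_0^{rad} r^2 dr = rad^3/3. Product measure on
Ioi 0 ×ˢ Ioo (-π) π, Fubini (all functions bounded with bounded support, continuous or measurable). -/
def StPOL : Prop := ∀ (D : Set P2), Bd D → Sy D →
  (∫ φ in Ioo (-Real.pi) Real.pi, rad D φ ^ 2) = 2 * vl D ∧
  (∫ φ in Ioo (-Real.pi) Real.pi, rad D φ ^ 3 * nrm D (Real.cos φ, Real.sin φ)) =
    3 * ∫ z in D, nrm D z

/-- DIS: the mean of the norm and the volume product (about 120 lines), uses StCTN and StPLR. PROOF. Let V = vl D > 0, P = vl (plr D) > 0 (interior nonempty),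
J = ∫_D nrm D. plr D = {z : nrm D z <= 1} and {z : nrm D z <= t} = t • plr D has area t^2 P for t >= 0 (homogeneity; Measure.addHaar_smul). Put T = sqrt(V/P).
Pointwise for every z: nrm D z >= T - max(T - nrm D z, 0)... so J >= ∫_D (T - (T - nrm)_+) = T V - ∫_D (T - nrm)_+ >= T V - ∫_{ℝ²} (T - nrm)_+, and
∫_{ℝ²} (T - nrm D z)_+ dz = ∫_0^T volume{nrm <= t} dt = ∫_0^T t^2 P dt = P T^3/3 (layer cake or Fubini for {(z,t) : nrm z <= t <= T}). So J >= T V - P T^3/3 = (2/3) T V
(P T^2 = V), J^2 >= (4/9) V^3/P. -/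
def StDIS : Prop := ∀ (D : Set P2), Bd D → Sy D →
  4 * vl D ^ 3 ≤ 9 * vl (plr D) * (∫ z in D, nrm D z) ^ 2

/-- PLR: the polar body is a body (about 70 lines), uses StCTN. PROOF. plr D is an intersection of closed convex sets; symmetric since |det2 (-z) y| = |det2 z y|. D contains
a ball of radius ρ about 0, so |det2 z y| <= 1 for all y in this ball bounds z: plr D is bounded. D is bounded, so a small ball about 0 is in plr D. -/
def StPLR : Prop := ∀ (D : Set P2), Bd D → Sy D → Bd (plr D) ∧ Sy (plr D)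

/-- PLO: one-dimensional multiplicative Prékopa-Leindler inequality (about 200 lines, strong prover).
PROOF. I = ∫_0^a f > 0, J = ∫_0^A G > 0 (positive on [0,a), [0,A); at the end points the functions may be anything, they do not matter). f and G are continuous on (0,a), (0,A)
(concave). aA <= 1 (limit of x y < 1 for x < a, y < A, since f x G y > 0). Let Φ x = (1/I) ∫_0^x f and Ψ y = (1/J) ∫_0^y G: continuous, strictly increasing bijections [0,a] → [0,1], [0,A] → [0,1],
with derivative f x/I > 0 on (0,a), G y/J > 0 on (0,A). Let x(m), y(m) be the inverse functions on [0,1] (continuous; on (0,1) differentiable with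
x' = I/f(x), y' = J/G(y): HasDerivAt.of_local_left_inverse or OrderIso/StrictMonoOn). Put u(m) = sqrt(x(m) y(m)), continuous on [0,1], u(0) = 0, u(1) = sqrt(aA) <= 1 and
H(v) = ∫_0^v sqrt(1 - t^2) dt (or arcsin formula), h(m) = H(u(m)). For m in (0,1): h' = sqrt(1 - x y) * (x' y + x y')/(2 sqrt(x y)) >= sqrt(f(x) G(y)) * sqrt(x' y') = sqrt(I J)
(1 - x y >= f G > 0; (x' y + x y')/2 >= sqrt(x y x' y')). So h(1) - h(0) >= sqrt(I J) (mean value inequality on [0,1]: image_sub_le..., or
Convex.image_sub_lt..., e.g. monotoneOn_of_deriv_nonneg for h(m) - sqrt(IJ) m). Finally h(1) <= H(1) = π/4 (area of a quarter disc: integral_sqrt_one_sub_sq). So sqrt(I J) <= π/4. -/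
def StPLO : Prop := ∀ (a A : ℝ) (f G : ℝ → ℝ), 0 < a → 0 < A →
  ConcaveOn ℝ (Icc 0 a) f → AntitoneOn f (Icc 0 a) → (∀ x, 0 ≤ x → x < a → 0 < f x) →
  ConcaveOn ℝ (Icc 0 A) G → AntitoneOn G (Icc 0 A) → (∀ x, 0 ≤ x → x < A → 0 < G x) →
  (∀ x y, 0 ≤ x → x ≤ a → 0 ≤ y → y ≤ A → f x * G y ≤ 1 - x * y) →
  (∫ x in (0 : ℝ)..a, f x) * (∫ y in (0 : ℝ)..A, G y) ≤ (Real.pi / 4) ^ 2

/-- SNF: half of a symmetric body (about 120 lines), uses StSLC, StSLK, StLAY. PROOF. H = sSup (Prod.snd '' D) > 0 and Prod.snd '' D = Icc (-H) H (convex, compact, symmetric, nonempty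
interior). len D is concave on [-H,H]: if the slices at τ, τ' are Icc a b, Icc a' b' then the slice at the convex combination contains the combination of the segments. Even:
the slice at -τ is minus the slice at τ. Concave and even on [-H,H] implies antitone on [0,H]. len D 0 > 0 (interior: 0 is an interior point of D), len D x >= (1 - x/H) len D 0 > 0.
vl D = ∫ len = ∫_{-H}^{H} len = 2 ∫_0^H len (StLAY (1), len = 0 outside, intervalIntegral.integral_comp_neg). -/
def StSNF : Prop := ∀ (D : Set P2), Bd D → Sy D →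
  0 < sSup (Prod.snd '' D) ∧ ConcaveOn ℝ (Icc 0 (sSup (Prod.snd '' D))) (len D) ∧
  AntitoneOn (len D) (Icc 0 (sSup (Prod.snd '' D))) ∧
  (∀ x, 0 ≤ x → x < sSup (Prod.snd '' D) → 0 < len D x) ∧
  2 * (∫ τ in (0 : ℝ)..sSup (Prod.snd '' D), len D τ) = vl D

/-- SNC: the product inequality (about 80 lines), uses StPLR, StSLC, StSLK. PROOF. Let f = len D τ/2, g = wd (plr D) (2s)/2. The slice of D at height τ is nonempty
(0 <= τ <= H, Prod.snd '' D = Icc (-H) H), so (y,τ), (y + 2f, τ) in D for some y. The set hs (plr D) (2s) is compact, convex, nonempty and symmetric ((t,τ'),(t+2s,τ') in plr D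
implies (-t-2s,-τ'),(-t,-τ') in plr D), so it is Icc (-g) g and g belongs to it: (t,g), (t+2s,g) in plr D. Now det2 (t+2s,g) (y,τ) = (t+2s) τ - g y <= 1 and
-det2 (t,g) (y+2f,τ) = -t τ + g (y+2f) <= 1; the sum is 2 s τ + 2 g f <= 2. -/
def StSNC : Prop := ∀ (D : Set P2), Bd D → Sy D → ∀ τ s : ℝ, 0 ≤ τ →
  τ ≤ sSup (Prod.snd '' D) → 0 ≤ s → 2 * s ≤ ho (plr D) →
  len D τ / 2 * (wd (plr D) (2 * s) / 2) ≤ 1 - τ * s

/-- SAN: the inequality of Blaschke and Santaló for symmetric bodies in the plane; assembled by the owner from PLO, SNF, SNC, PLR, LAY, WCO. -/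
def StSAN : Prop := ∀ (D : Set P2), Bd D → Sy D → vl D * vl (plr D) ≤ Real.pi ^ 2

/-- BRM: Brunn-Minkowski for K and -K in the plane (about 110 lines), uses StSLC, StSLK, StLAY, StRAD (only Bd (K-K)). PROOF. D = K - K. For 0 <= s <= ho K: hs K s = Icc α β.
If x in [-(β-α), β-α] then x = τ - τ' with τ, τ' in Icc α β, the slices at τ, τ' contain [t,t+s], [t',t'+s], so the slice of D at x contains t - t' - s and t - t' + s: x in hs D (2s). So
wd D (2s) >= 2 wd K s, and 2 ho K <= ho D. vl D = ∫_0^{ho D} wd D >= ∫_0^{2 ho K} wd D u du = 2 ∫_0^{ho K} wd D (2s) ds >= 4 ∫_0^{ho K} wd K = 4 vl K (StLAY (2)). -/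
def StBRM : Prop := ∀ (K : Set P2), Bd K → 4 * vl K ≤ vl (K - K)

/-- TRF: the Euclidean plane and the coordinate plane (about 120 lines). PROOF. The map p ↦ !₂[p.1,p.2] is a linear homeomorphism P2 → E2 and measure preserving
(EuclideanSpace.volume_preserving_measurableEquiv, MeasureTheory.volume_preserving_finTwoArrow). So toP K is convex, compact, has nonempty interior, the same volume; toP (K-K) = toP K - toP K;
the volumes are finite (compact sets; plr is bounded) and vl (toP K) > 0 (open nonempty subset). polarBody (K-K): inner ℝ z y = z 0 * y 0 + z 1 * y 1; since K - K is symmetric, z is in the polar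
body iff |inner z y| <= 1 for all y in K-K; with J (a,b) = (-b, a) (rotation, measure preserving) det2 (z) y = inner (J' z) y for the appropriate rotation J', so plr (toP K - toP K) is the
image of toP (polarBody (K-K)) under a rotation by 90 degrees and has the same volume. -/
def StTRF : Prop := ∀ (K : Set E2), Convex ℝ K → IsCompact K → (interior K).Nonempty →
  Bd (toP K) ∧ volume K = ENNReal.ofReal (vl (toP K)) ∧
  volume (K - K) = ENNReal.ofReal (vl (toP K - toP K)) ∧
  volume (polarBody (K - K)) = ENNReal.ofReal (vl (plr (toP K - toP K))) ∧ 0 < vl (toP K)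

end Pool.Agent.Helper27.CB
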